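import Pool.Agent.H207.TP.Stm

/-!
# Escaping points of a polynomial
-/

set_option autoImplicit false

open Metric Set MeasureTheory Filter Topology Polynomial
open scoped OnePoint ENNReal

namespace Pool.Agent.H696.TP207

open Pool.Agent.H207.TP

/-- The radius. -/
theorem radius (T : ℂ[X]) (hT : 2 ≤ T.natDegree) : ∃ R : ℝ, 1 ≤ R ∧ ∀ y : ℂ, R ≤ ‖y‖ → 2 * ‖y‖ ≤ ‖T.eval y‖ := by
  have hG : 0 < (divX T).degree := by
    rw [← natDegree_pos_iff_degree_pos, natDegree_divX_eq_natDegree_tsub_one]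
    omega
  have h1 : Tendsto (fun y : ℂ => ‖(divX T).eval y‖) (comap norm atTop) atTop :=
    (divX T).tendsto_norm_atTop hG tendsto_comap
  have h2 := Filter.eventually_comap.mp (h1.eventually_ge_atTop 3)
  obtain ⟨R₀, hR₀⟩ := eventually_atTop.mp h2
  refine ⟨max 1 (max R₀ ‖T.coeff 0‖), le_max_left _ _, fun y hy => ?_⟩
  have h3 : 1 ≤ ‖y‖ := (le_max_left _ _).trans hy
  have h4 : R₀ ≤ ‖y‖ := ((le_max_left _ _).trans (le_max_right _ _)).trans hy
  have h5 : ‖T.coeff 0‖ ≤ ‖y‖ := ((le_max_right _ _).trans (le_max_right _ _)).trans hy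
  have h6 := hR₀ _ h4 y rfl
  have h7 : T.eval y = y * (divX T).eval y + T.coeff 0 := by
    have h := congrArg (eval y) (X_mul_divX_add T)
    rw [eval_add, eval_mul, eval_X, eval_C] at h
    exact h.symm
  have h8 : ‖y * (divX T).eval y‖ ≤ ‖T.eval y‖ + ‖T.coeff 0‖ := by
    have h9 : y * (divX T).eval y = T.eval y - T.coeff 0 := by rw [h7]; ring
    rw [h9]
    exact norm_sub_le _ _
  rw [norm_mul] at h8
  have h10 : ‖y‖ * 3 ≤ ‖y‖ * ‖(divX T).eval y‖ := mul_le_mul_of_nonneg_left h6 (norm_nonneg _)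
  linarith

theorem growth (T : ℂ[X]) (R : ℝ) (hR : ∀ y : ℂ, R ≤ ‖y‖ → 2 * ‖y‖ ≤ ‖T.eval y‖) (z : ℂ)
    (hz : R ≤ ‖z‖) (k : ℕ) : 2 ^ k * ‖z‖ ≤ ‖(ev T)^[k] z‖ := by
  induction k with
  | zero => simp
  | succ k ih =>
    rw [Function.iterate_succ_apply']
    have h1 : ‖z‖ ≤ 2 ^ k * ‖z‖ := le_mul_of_one_le_left (norm_nonneg _) (one_le_pow₀ (by norm_num))
    have h2 := hR ((ev T)^[k] z) (hz.trans (h1.trans ih))
    calc 2 ^ (k + 1) * ‖z‖ = 2 * (2 ^ k * ‖z‖) := by ring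
      _ ≤ 2 * ‖(ev T)^[k] z‖ := by linarith
      _ ≤ ‖ev T ((ev T)^[k] z)‖ := h2

theorem esc (T : ℂ[X]) (R : ℝ) (hR1 : 1 ≤ R) (hR : ∀ y : ℂ, R ≤ ‖y‖ → 2 * ‖y‖ ≤ ‖T.eval y‖) (z : ℂ)
    (hz : R ≤ ‖z‖) : Esc T z := by
  unfold Esc
  refine tendsto_atTop_mono (fun k => ?_) (tendsto_pow_atTop_atTop_of_one_lt (show (1 : ℝ) < 2 by norm_num))
  have h1 := growth T R hR z hz k
  have h2 : (1 : ℝ) ≤ ‖z‖ := hR1.trans hz
  have h3 : (0 : ℝ) < 2 ^ k := by positivity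
  calc (2 : ℝ) ^ k = 2 ^ k * 1 := (mul_one _).symm
    _ ≤ 2 ^ k * ‖z‖ := mul_le_mul_of_nonneg_left h2 h3.le
    _ ≤ _ := h1

theorem t_ESCB : Pool.Agent.H207.TP.S_ESCB := by
  intro T hT
  obtain ⟨R, hR1, hR⟩ := radius T hT
  refine ⟨fun F hF => ?_, R, by linarith, fun z hz n => ?_⟩
  · obtain ⟨M, hM⟩ := isBounded_iff_forall_norm_le.mp hF.isBounded
    have h1 : ‖((max M R + 1 : ℝ) : ℂ)‖ = max M R + 1 := by
      rw [Complex.norm_real, Real.norm_eq_abs, abs_of_nonneg]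
      have := le_max_right M R
      linarith
    refine ⟨((max M R + 1 : ℝ) : ℂ), fun hb => ?_, esc T R hR1 hR _ ?_⟩
    · have h2 := hM _ hb
      rw [h1] at h2
      have := le_max_left M R
      linarith
    · rw [h1]
      have := le_max_right M R
      linarith
  · by_contra hc
    push Not at hc
    apply hz
    have h1 := esc T R hR1 hR _ hc.le
    unfold Esc at h1 ⊢
    rw [← tendsto_add_atTop_iff_nat n]
    refine h1.congr fun k => ?_
    rw [Function.iterate_add_apply]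

end Pool.Agent.H696.TP207
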